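import Pool.Agent.H98.RFC.Targets

/-!
# Row BOX of the board rfc (helper98, MP_057a7e_pr)

One box with arbitrary boundary conditions.
-/

set_option autoImplicit false

open Pool.Agent.H98.RFC

namespace Pool.Agent.H13.RFC

theorem wt_pos (R : ℕ) (J h : Site → ℝ) (T : ℝ) (Λ : Finset Site) (B : Set Site)
    (S : Finset Site) : 0 < wt R J h T Λ B S := Real.exp_pos _

theorem Zf_pos (R : ℕ) (J h : Site → ℝ) (T : ℝ) (Λ : Finset Site) (B : Set Site) :
    0 < Zf R J h T Λ B := by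
  unfold Zf
  apply Finset.sum_pos (fun S _ => wt_pos R J h T Λ B S)
  exact ⟨∅, Finset.empty_mem_powerset Λ⟩

theorem qe_01 (R : ℕ) (J : Site → ℝ) (hJ : IsCoupling R J) (T : ℝ) (hT : 0 < T)
    (e : Site × Site) : 0 ≤ qe J T e ∧ qe J T e ≤ 1 := by
  unfold qe
  refine ⟨(Real.exp_pos _).le, ?_⟩
  rw [Real.exp_le_one_iff]
  apply div_nonpos_of_nonpos_of_nonneg _ hT.le
  have := hJ.nonneg (e.1 - e.2)
  linarith

theorem pf_BOX (hREP : T_REP) (hMON : T_MON) (hPM : T_PM) : T_BOX := by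
  intro R J hJ h T hT W B B' hB hB' y hy
  set G : Finset Site → Finset Site → ℝ := fun S S' =>
    psi (qe J T) (prs R W) ((↑S ∪ (↑W : Set Site)ᶜ) \ ↑S') W y with hG
  have hq := qe_01 R J hJ T hT
  have hBW : B ⊆ (↑W : Set Site)ᶜ := fun z hz hzW => Set.disjoint_left.mp hB hz hzW
  -- step 1
  have h1 : ∑ S ∈ W.powerset, ∑ S' ∈ W.powerset, wt R J h T W B S * wt R J h T W B' S' *
      psi (qe J T) (prs R W) ((↑S ∪ B) \ (↑S' ∪ B')) W y ≤
      ∑ S' ∈ W.powerset, wt R J h T W B' S' * ∑ S ∈ W.powerset, wt R J h T W B S * G S S' := by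
    rw [Finset.sum_comm]
    apply Finset.sum_le_sum
    intro S' _
    rw [Finset.mul_sum]
    apply Finset.sum_le_sum
    intro S _
    have hsub : ((↑S ∪ B) \ (↑S' ∪ B') : Set Site) ⊆ (↑S ∪ (↑W : Set Site)ᶜ) \ ↑S' := by
      intro z hz
      refine ⟨?_, fun hzS' => hz.2 (Or.inl hzS')⟩
      rcases hz.1 with h2 | h2
      · exact Or.inl h2
      · exact Or.inr (hBW h2)
    have h3 := (hPM (qe J T) (prs R W) _ _ W y hq hsub).2.1
    calc wt R J h T W B S * wt R J h T W B' S' *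
        psi (qe J T) (prs R W) ((↑S ∪ B) \ (↑S' ∪ B')) W y
        ≤ wt R J h T W B S * wt R J h T W B' S' * G S S' :=
          mul_le_mul_of_nonneg_left h3 (mul_pos (wt_pos _ _ _ _ _ _ _) (wt_pos _ _ _ _ _ _ _)).le
      _ = wt R J h T W B' S' * (wt R J h T W B S * G S S') := by ring
  -- monotonicity in the first variable
  have h2 : ∀ S' : Finset Site, (∑ S ∈ W.powerset, wt R J h T W B S * G S S') *
      Zf R J h T W (↑W)ᶜ ≤ Zf R J h T W B * ∑ S ∈ W.powerset, wt R J h T W (↑W)ᶜ S * G S S' := by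
    intro S'
    apply hMON R J hJ h T hT W B (↑W)ᶜ hBW hB (Set.disjoint_compl_left_iff_subset.mpr le_rfl)
      (fun S => G S S')
    intro S S₁ hSS _
    apply (hPM (qe J T) (prs R W) _ _ W y hq _).2.1
    intro z hz
    refine ⟨?_, hz.2⟩
    rcases hz.1 with h3 | h3
    · exact Or.inl (Finset.coe_subset.mpr hSS h3)
    · exact Or.inr h3
  -- monotonicity in the second variable
  have h3 := hMON R J hJ h T hT W ∅ B' (Set.empty_subset _) (Set.empty_disjoint _) hB'
    (fun S' => -∑ S ∈ W.powerset, wt R J h T W (↑W)ᶜ S * G S S') (by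
      intro S' S₁ hSS _
      simp only [neg_le_neg_iff]
      apply Finset.sum_le_sum
      intro S _
      apply mul_le_mul_of_nonneg_left _ (wt_pos _ _ _ _ _ _ _).le
      apply (hPM (qe J T) (prs R W) _ _ W y hq _).2.1
      intro z hz
      exact ⟨hz.1, fun h4 => hz.2 (Finset.coe_subset.mpr hSS h4)⟩)
  simp only [mul_neg, Finset.sum_neg_distrib, neg_mul, neg_le_neg_iff] at h3
  have hrep := hREP R J hJ h T hT W y hy
  have hrep' : ∑ S' ∈ W.powerset, wt R J h T W ∅ S' *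
      ∑ S ∈ W.powerset, wt R J h T W (↑W)ᶜ S * G S S' =
      Zf R J h T W (↑W)ᶜ * Zf R J h T W ∅ * inf1 R J h T W y := by
    rw [← hrep, Finset.sum_comm]
    apply Finset.sum_congr rfl
    intro S' _
    rw [Finset.mul_sum]
    apply Finset.sum_congr rfl
    intro S _
    ring
  rw [hrep'] at h3
  set Zc := Zf R J h T W (↑W)ᶜ with hZc
  set Z0 := Zf R J h T W ∅ with hZ0
  set ZB := Zf R J h T W B with hZB
  set ZB' := Zf R J h T W B' with hZB'
  set X := ∑ S' ∈ W.powerset, wt R J h T W B' S' *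
    ∑ S ∈ W.powerset, wt R J h T W B S * G S S' with hX
  set Y := ∑ S' ∈ W.powerset, wt R J h T W B' S' *
    ∑ S ∈ W.powerset, wt R J h T W (↑W)ᶜ S * G S S' with hY
  have pZc : 0 < Zc := Zf_pos _ _ _ _ _ _
  have pZ0 : 0 < Z0 := Zf_pos _ _ _ _ _ _
  have pZB : 0 < ZB := Zf_pos _ _ _ _ _ _
  have hXY : X * Zc ≤ ZB * Y := by
    rw [hX, hY, Finset.sum_mul, Finset.mul_sum]
    apply Finset.sum_le_sum
    intro S' _
    have := mul_le_mul_of_nonneg_left (h2 S') (wt_pos R J h T W B' S').le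
    calc _ = wt R J h T W B' S' * ((∑ S ∈ W.powerset, wt R J h T W B S * G S S') * Zc) := by ring
      _ ≤ _ := this
      _ = _ := by ring
  have hY' : Y ≤ Zc * inf1 R J h T W y * ZB' := by
    have : Z0 * Y ≤ Z0 * (Zc * inf1 R J h T W y * ZB') := by
      calc Z0 * Y ≤ Zc * Z0 * inf1 R J h T W y * ZB' := h3
        _ = _ := by ring
    exact le_of_mul_le_mul_left this pZ0
  have hfin : X * Zc ≤ ZB * ZB' * inf1 R J h T W y * Zc := by
    calc X * Zc ≤ ZB * Y := hXY
      _ ≤ ZB * (Zc * inf1 R J h T W y * ZB') := mul_le_mul_of_nonneg_left hY' pZB.le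
      _ = _ := by ring
  exact h1.trans (le_of_mul_le_mul_right hfin pZc)

end Pool.Agent.H13.RFC
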